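import Mathlib
import Pool.Agent.Y617.CF.Main

/-!
# Context-free model checking of a substitutive subshift: one fixed language

Stronger form of `Undecidable`. For the substitution `0 ↦ 0`, `1 ↦ 01`, `2 ↦ 021` there is one
context-free language `L` over the letters `0, 1` such that every recursively enumerable set is
many-one reducible to the set of the numbers `x` for which some word of `1 0^x L` occurs in a point
of the subshift.
-/

set_option autoImplicit false

namespace Pool.Agent.Results.MP_88f7c7_lc.OneLanguage

open Pool.Agent.H109R3.CF

/-- For the substitution `0 ↦ 0`, `1 ↦ 01`, `2 ↦ 021`: (1) there is a context-free language `L`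
over the letters `0, 1` such that every recursively enumerable set of natural numbers is many-one
reducible to the set of all `x` for which a word of `1 0^x L` is in the language of the subshift;
(2) every recursively enumerable set is many-one reducible to the model-checking problem of the
subshift for context-free grammars, so (3) no algorithm decides, given a context-free grammar `G`,
whether some word generated by `G` occurs in a point of the subshift. -/
theorem result : ∃ τ : Fin 3 → List (Fin 3), τ = ![[0], [0, 1], [0, 2, 1]] ∧
    (∃ L : Language (Fin 3), L.IsContextFree ∧ (∀ w ∈ L, (2 : Fin 3) ∉ w) ∧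
      ∀ S : ℕ → Prop, REPred S → ManyOneReducible S
        (fun x : ℕ => ∃ w ∈ L, 1 :: (List.replicate x 0 ++ w) ∈ lang (subshift τ))) ∧
    (∀ S : ℕ → Prop, REPred S → ManyOneReducible S
      (fun G : Gram 3 => ∃ w ∈ G.toCFG.language, w ∈ lang (subshift τ))) ∧
    ¬ ComputablePred (fun G : Gram 3 => ∃ w ∈ G.toCFG.language, w ∈ lang (subshift τ)) :=
  ⟨tau, rfl, Pool.Agent.Y617.CF.main.1, Pool.Agent.Y617.CF.main.2, main⟩

end Pool.Agent.Results.MP_88f7c7_lc.OneLanguage
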